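import Pool.Agent.L7h6.RV.Nb

/-! [DV] of project RV (helper57). -/

set_option autoImplicit false

namespace Pool.Agent.L7h6.RV

open MvPolynomial Pool.Helper89.Rev Pool.Agent.L7h57.RV

/-- quotient by `x` -/
noncomputable def U : MvPolynomial (Fin 2) ℂ →ₗ[ℂ] MvPolynomial (Fin 2) ℂ where
  toFun p := p.divMonomial (Finsupp.single 0 1)
  map_add' p q := add_divMonomial p q _
  map_smul' c p := by
    ext m
    simp only [coeff_divMonomial, coeff_smul, RingHom.id_apply]

/-- quotient of the rest by `y` -/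
noncomputable def Vq : MvPolynomial (Fin 2) ℂ →ₗ[ℂ] MvPolynomial (Fin 2) ℂ where
  toFun p := (p - X 0 * U p).divMonomial (Finsupp.single 1 1)
  map_add' p q := by
    rw [← add_divMonomial]
    congr 1
    rw [map_add]
    ring
  map_smul' c p := by
    ext m
    simp only [map_smul, coeff_divMonomial, coeff_smul, coeff_sub, RingHom.id_apply,
      mul_smul_comm]
    rw [smul_sub]

theorem coeff_U (p : MvPolynomial (Fin 2) ℂ) (m : Fin 2 →₀ ℕ) :
    coeff m (U p) = coeff (Finsupp.single 0 1 + m) p := coeff_divMonomial _ _ _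

theorem single_add_sub {m : Fin 2 →₀ ℕ} {i : Fin 2} (h : m i ≠ 0) :
    Finsupp.single i 1 + (m - Finsupp.single i 1) = m := by
  ext j
  simp only [Finsupp.add_apply, Finsupp.tsub_apply]
  by_cases hj : i = j
  · subst hj
    rw [Finsupp.single_eq_same]
    omega
  · rw [Finsupp.single_eq_of_ne' hj]
    omega

theorem coeff_rest (p : MvPolynomial (Fin 2) ℂ) (m : Fin 2 →₀ ℕ) :
    coeff m (p - X 0 * U p) = if m 0 = 0 then coeff m p else 0 := by
  rw [coeff_sub, coeff_X_mul']
  by_cases h : m 0 = 0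
  · rw [if_pos h, if_neg (by rw [Finsupp.mem_support_iff]; exact fun h' => h' h), sub_zero]
  · rw [if_neg h, if_pos (by rw [Finsupp.mem_support_iff]; exact h), coeff_U, single_add_sub h, sub_self]

theorem coeff_V (p : MvPolynomial (Fin 2) ℂ) (m : Fin 2 →₀ ℕ) :
    coeff m (Vq p) = if m 0 = 0 then coeff (Finsupp.single 1 1 + m) p else 0 := by
  have h : coeff m (Vq p) = coeff (Finsupp.single 1 1 + m) (p - X 0 * U p) :=
    coeff_divMonomial _ _ _
  rw [h, coeff_rest]
  congr 1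
  simp

theorem deg_eq {p : MvPolynomial (Fin 2) ℂ} {k : ℕ} (hp : p.IsHomogeneous k) {m : Fin 2 →₀ ℕ}
    (hm : coeff m p ≠ 0) : m 0 + m 1 = k := by
  have h2 := hp hm
  rw [Finsupp.weight_apply, Finsupp.sum_fintype _ _ (by simp)] at h2
  simpa [Fin.sum_univ_two] using h2

theorem hom_of {p : MvPolynomial (Fin 2) ℂ} {k : ℕ}
    (h : ∀ m, coeff m p ≠ 0 → m 0 + m 1 = k) : p.IsHomogeneous k := by
  intro m hm
  rw [Finsupp.weight_apply, Finsupp.sum_fintype _ _ (by simp)]
  simpa [Fin.sum_univ_two] using h m hm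

theorem hom_U {p : MvPolynomial (Fin 2) ℂ} {k : ℕ} (hp : p.IsHomogeneous (k + 1)) :
    (U p).IsHomogeneous k := by
  refine hom_of fun m hm => ?_
  rw [coeff_U] at hm
  have := deg_eq hp hm
  simp at this
  omega

theorem hom_V {p : MvPolynomial (Fin 2) ℂ} {k : ℕ} (hp : p.IsHomogeneous (k + 1)) :
    (Vq p).IsHomogeneous k := by
  refine hom_of fun m hm => ?_
  rw [coeff_V] at hm
  by_cases h : m 0 = 0
  · rw [if_pos h] at hm
    have := deg_eq hp hm
    simp at this
    omega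
  · rw [if_neg h] at hm
    exact absurd rfl hm

theorem split_eq {p : MvPolynomial (Fin 2) ℂ} {k : ℕ} (hp : p.IsHomogeneous (k + 1)) :
    X 0 * U p + X 1 * Vq p = p := by
  have key : X 1 * Vq p = p - X 0 * U p := by
    ext m
    rw [coeff_rest, coeff_X_mul']
    by_cases h1 : m 1 = 0
    · rw [if_neg (by rw [Finsupp.mem_support_iff]; exact fun h' => h' h1)]
      by_cases h0 : m 0 = 0
      · rw [if_pos h0]
        by_contra hne
        have := deg_eq hp (Ne.symm hne)
        omega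
      · rw [if_neg h0]
    · rw [if_pos (by rw [Finsupp.mem_support_iff]; exact h1), coeff_V, single_add_sub h1]
      simp
  rw [key]
  ring

theorem nr1_split (p : MvPolynomial (Fin 2) ℂ) : nr1 (U p) + nr1 (Vq p) ≤ nr1 p := by
  classical
  have h1 : nr1 (U p) = ∑ m ∈ (U p).support.image (fun m => Finsupp.single 0 1 + m), ‖coeff m p‖ := by
    rw [Finset.sum_image (fun a _ b _ h => add_left_cancel h)]
    unfold nr1
    exact Finset.sum_congr rfl fun m _ => by rw [coeff_U]
  have hV : ∀ m ∈ (Vq p).support, m 0 = 0 ∧ coeff m (Vq p) = coeff (Finsupp.single 1 1 + m) p := by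
    intro m hm
    have h := mem_support_iff.1 hm
    rw [coeff_V] at h ⊢
    by_cases h0 : m 0 = 0
    · exact ⟨h0, if_pos h0⟩
    · rw [if_neg h0] at h
      exact absurd rfl h
  have h2 : nr1 (Vq p) = ∑ m ∈ (Vq p).support.image (fun m => Finsupp.single 1 1 + m), ‖coeff m p‖ := by
    rw [Finset.sum_image (fun a _ b _ h => add_left_cancel h)]
    unfold nr1
    exact Finset.sum_congr rfl fun m hm => by rw [(hV m hm).2]
  have hd : Disjoint ((U p).support.image (fun m => Finsupp.single 0 1 + m))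
      ((Vq p).support.image (fun m => Finsupp.single 1 1 + m)) := by
    rw [Finset.disjoint_left]
    intro m hm hm'
    obtain ⟨a, -, rfl⟩ := Finset.mem_image.1 hm
    obtain ⟨b, hb, hb'⟩ := Finset.mem_image.1 hm'
    have h3 := congrArg (fun f => f 0) hb'
    have h4 := (hV b hb).1
    simp [h4] at h3
    omega
  rw [h1, h2, ← Finset.sum_union hd]
  unfold nr1
  refine Finset.sum_le_sum_of_subset_of_nonneg ?_ fun _ _ _ => norm_nonneg _
  intro m hm
  rcases Finset.mem_union.1 hm with h | h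
  · obtain ⟨a, ha, rfl⟩ := Finset.mem_image.1 h
    rw [mem_support_iff, ← coeff_U]
    exact mem_support_iff.1 ha
  · obtain ⟨a, ha, rfl⟩ := Finset.mem_image.1 h
    rw [mem_support_iff, ← (hV a ha).2]
    exact mem_support_iff.1 ha

theorem nr1_C_mul (c : ℂ) (p : MvPolynomial (Fin 2) ℂ) : nr1 (C c * p) ≤ ‖c‖ * nr1 p := by
  have h := nr1_mul (C c) p
  rwa [show nr1 (C c) = ‖c‖ from nr1_monomial 0 c] at h

theorem nr1_mul_X (p : MvPolynomial (Fin 2) ℂ) (i : Fin 2) : nr1 (p * X i) ≤ nr1 p := by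
  have h := nr1_mul p (X i)
  rwa [show nr1 (X i) = ‖(1 : ℂ)‖ from nr1_monomial (Finsupp.single i 1) 1, norm_one, mul_one] at h

theorem br_xE {k : ℕ} {D : VF 2} (hD : HomT k D) (i : Fin 2) :
    br xE D i = D 0 * X i + X 0 * D i - (k : MvPolynomial (Fin 2) ℂ) * (X 0 * D i) := by
  have h := (hD i).sum_X_mul_pderiv
  rw [Fin.sum_univ_two, nsmul_eq_mul] at h
  unfold br xE
  rw [Fin.sum_univ_two]
  fin_cases i
  · simp only [Fin.zero_eta, Derivation.leibniz, pderiv_X, smul_eq_mul] at h ⊢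
    simp
    linear_combination (-X 0) * h
  · simp only [Fin.mk_one, Derivation.leibniz, pderiv_X, smul_eq_mul] at h ⊢
    simp
    linear_combination (-X 0) * h

theorem br_yE {k : ℕ} {D : VF 2} (hD : HomT k D) (i : Fin 2) :
    br yE D i = D 1 * X i + X 1 * D i - (k : MvPolynomial (Fin 2) ℂ) * (X 1 * D i) := by
  have h := (hD i).sum_X_mul_pderiv
  rw [Fin.sum_univ_two, nsmul_eq_mul] at h
  unfold br yE
  rw [Fin.sum_univ_two]
  fin_cases i
  · simp only [Fin.zero_eta, Derivation.leibniz, pderiv_X, smul_eq_mul] at h ⊢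
    simp
    linear_combination (-X 1) * h
  · simp only [Fin.mk_one, Derivation.leibniz, pderiv_X, smul_eq_mul] at h ⊢
    simp
    linear_combination (-X 1) * h

/-- the common factor -/
noncomputable def qq (b : ℂ) (w : VF 2) : MvPolynomial (Fin 2) ℂ := C b * (U (w 0) + Vq (w 1))

theorem qq_smul (b r : ℂ) (w : VF 2) : qq b (r • w) = r • qq b w := by
  unfold qq
  rw [Pi.smul_apply, Pi.smul_apply, map_smul, map_smul, ← smul_add, mul_smul_comm]

/-- the first component of the inverse -/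
noncomputable def Bm (b c : ℂ) : VF 2 →ₗ[ℂ] VF 2 where
  toFun w := fun i => -(C b * U (w i)) - C c * (U (qq b w) * X i)
  map_add' w w' := by
    funext i
    simp only [Pi.add_apply, map_add, qq, mul_add]
    ring
  map_smul' r w := by
    funext i
    show -(C b * U ((r • w) i)) - C c * (U (qq b (r • w)) * X i) =
      r • (-(C b * U (w i)) - C c * (U (qq b w) * X i))
    rw [Pi.smul_apply, qq_smul, map_smul, map_smul]
    simp only [smul_eq_C_mul]
    ring

/-- the second component of the inverse -/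
noncomputable def Bp (b c : ℂ) : VF 2 →ₗ[ℂ] VF 2 where
  toFun w := fun i => -(C b * Vq (w i)) - C c * (Vq (qq b w) * X i)
  map_add' w w' := by
    funext i
    simp only [Pi.add_apply, map_add, qq, mul_add]
    ring
  map_smul' r w := by
    funext i
    show -(C b * Vq ((r • w) i)) - C c * (Vq (qq b (r • w)) * X i) =
      r • (-(C b * Vq (w i)) - C c * (Vq (qq b w) * X i))
    rw [Pi.smul_apply, qq_smul, map_smul, map_smul]
    simp only [smul_eq_C_mul]
    ring

theorem s_DV : S_DV := by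
  intro d hd
  obtain ⟨e, rfl⟩ : ∃ e, d = e + 4 := ⟨d - 4, by omega⟩
  have hb0 : ((e : ℂ) + 2) ≠ 0 := by
    have : ((e + 2 : ℕ) : ℂ) ≠ 0 := Nat.cast_ne_zero.2 (by omega)
    push_cast at this
    exact this
  have hc0 : ((e : ℂ) + 1) ≠ 0 := by
    have : ((e + 1 : ℕ) : ℂ) ≠ 0 := Nat.cast_ne_zero.2 (by omega)
    push_cast at this
    exact this
  set b : ℂ := 1 / ((e : ℂ) + 2) with hb
  set c : ℂ := 1 / ((e : ℂ) + 1) with hc
  have hbn : ‖b‖ = 1 / ((e : ℝ) + 2) := by
    rw [hb, norm_div, norm_one]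
    congr 1
    have : ((e : ℂ) + 2) = ((e + 2 : ℕ) : ℂ) := by push_cast; rfl
    rw [this, Complex.norm_natCast]
    push_cast
    rfl
  have hcn : ‖c‖ ≤ 1 := by
    rw [hc, norm_div, norm_one]
    have : ((e : ℂ) + 1) = ((e + 1 : ℕ) : ℂ) := by push_cast; rfl
    rw [this, Complex.norm_natCast, div_le_one (by positivity)]
    push_cast
    linarith [Nat.cast_nonneg (α := ℝ) e]
  have hb1 : C b * ((e : MvPolynomial (Fin 2) ℂ) + 2) = 1 := by
    have : ((e : MvPolynomial (Fin 2) ℂ) + 2) = C ((e : ℂ) + 2) := by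
      rw [map_add, map_natCast, map_ofNat]
    rw [this, ← C_mul, hb, one_div, inv_mul_cancel₀ hb0, C_1]
  have hc1 : C c * ((e : MvPolynomial (Fin 2) ℂ) + 1) = 1 := by
    have : ((e : MvPolynomial (Fin 2) ℂ) + 1) = C ((e : ℂ) + 1) := by
      rw [map_add, map_natCast, map_one]
    rw [this, ← C_mul, hc, one_div, inv_mul_cancel₀ hc0, C_1]
  refine ⟨Bm b c, Bp b c, fun w hw => ?_⟩
  have hw' : ∀ i, (w i).IsHomogeneous (e + 3 + 1) := hw
  have hq : (qq b w).IsHomogeneous (e + 2 + 1) :=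
    IsHomogeneous.C_mul ((hom_U (hw' 0)).add (hom_V (hw' 1))) b
  have hB : HomT (e + 3) (Bm b c w) := by
    intro i
    show (-(C b * U (w i)) - C c * (U (qq b w) * X i)).IsHomogeneous (e + 3)
    have h1 : (C b * U (w i)).IsHomogeneous (e + 3) := (hom_U (hw' i)).C_mul b
    have h2 : (C c * (U (qq b w) * X i)).IsHomogeneous (e + 3) :=
      ((hom_U hq).mul (isHomogeneous_X ℂ i)).C_mul c
    exact h1.neg.sub h2
  have hB' : HomT (e + 3) (Bp b c w) := by
    intro i
    show (-(C b * Vq (w i)) - C c * (Vq (qq b w) * X i)).IsHomogeneous (e + 3)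
    have h1 : (C b * Vq (w i)).IsHomogeneous (e + 3) := (hom_V (hw' i)).C_mul b
    have h2 : (C c * (Vq (qq b w) * X i)).IsHomogeneous (e + 3) :=
      ((hom_V hq).mul (isHomogeneous_X ℂ i)).C_mul c
    exact h1.neg.sub h2
  refine ⟨hB, hB', ?_, ?_⟩
  · funext i
    rw [Pi.add_apply, br_xE hB, br_yE hB']
    have s1 := split_eq (hw' i)
    have s2 := split_eq hq
    have e1 : Bm b c w i = -(C b * U (w i)) - C c * (U (qq b w) * X i) := rfl
    have e2 : Bm b c w 0 = -(C b * U (w 0)) - C c * (U (qq b w) * X 0) := rfl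
    have e3 : Bp b c w i = -(C b * Vq (w i)) - C c * (Vq (qq b w) * X i) := rfl
    have e4 : Bp b c w 1 = -(C b * Vq (w 1)) - C c * (Vq (qq b w) * X 1) := rfl
    have e5 : qq b w = C b * (U (w 0) + Vq (w 1)) := rfl
    rw [e1, e2, e3, e4]
    push_cast
    linear_combination (C c * X i * ((e : MvPolynomial (Fin 2) ℂ) + 2) - C c * X i) * s2 +
      (((e : MvPolynomial (Fin 2) ℂ) + 2) * C b) * s1 + w i * hb1 + X i * qq b w * hc1 + X i * e5
  · have hq1 : nr1 (qq b w) ≤ ‖b‖ * (nr1 (U (w 0)) + nr1 (Vq (w 1))) :=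
      (nr1_C_mul _ _).trans (mul_le_mul_of_nonneg_left (nr1_add _ _) (norm_nonneg _))
    have hU : ∀ i, nr1 (Bm b c w i) ≤ ‖b‖ * nr1 (U (w i)) + nr1 (U (qq b w)) := by
      intro i
      have e1 : Bm b c w i = -(C b * U (w i)) - C c * (U (qq b w) * X i) := rfl
      rw [e1]
      refine (nr1_sub _ _).trans (add_le_add ?_ ?_)
      · rw [nr1_neg]
        exact nr1_C_mul _ _
      · refine (nr1_C_mul _ _).trans ?_
        calc ‖c‖ * nr1 (U (qq b w) * X i) ≤ 1 * nr1 (U (qq b w) * X i) :=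
              mul_le_mul_of_nonneg_right hcn (nr1_nonneg _)
          _ ≤ nr1 (U (qq b w)) := by rw [one_mul]; exact nr1_mul_X _ _
    have hV : ∀ i, nr1 (Bp b c w i) ≤ ‖b‖ * nr1 (Vq (w i)) + nr1 (Vq (qq b w)) := by
      intro i
      have e1 : Bp b c w i = -(C b * Vq (w i)) - C c * (Vq (qq b w) * X i) := rfl
      rw [e1]
      refine (nr1_sub _ _).trans (add_le_add ?_ ?_)
      · rw [nr1_neg]
        exact nr1_C_mul _ _
      · refine (nr1_C_mul _ _).trans ?_
        calc ‖c‖ * nr1 (Vq (qq b w) * X i) ≤ 1 * nr1 (Vq (qq b w) * X i) :=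
              mul_le_mul_of_nonneg_right hcn (nr1_nonneg _)
          _ ≤ nr1 (Vq (qq b w)) := by rw [one_mul]; exact nr1_mul_X _ _
    have h0 := nr1_split (w 0)
    have h1 := nr1_split (w 1)
    have h2 := nr1_split (qq b w)
    have n0 := nr1_nonneg (U (w 0))
    have n1 := nr1_nonneg (Vq (w 0))
    have n2 := nr1_nonneg (U (w 1))
    have n3 := nr1_nonneg (Vq (w 1))
    have hbb : 0 ≤ ‖b‖ := norm_nonneg _
    have e1 : (3 : ℝ) / (((e + 4 : ℕ) : ℝ) - 2) = 3 * ‖b‖ := by
      rw [hbn]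
      push_cast
      have : (e : ℝ) + 4 - 2 = (e : ℝ) + 2 := by ring
      rw [this]
      ring
    rw [e1]
    unfold nrm
    simp only [Fin.sum_univ_two]
    have a0 := hU 0
    have a1 := hU 1
    have b0 := hV 0
    have b1 := hV 1
    have m1 : ‖b‖ * (nr1 (U (w 0)) + nr1 (Vq (w 0))) ≤ ‖b‖ * nr1 (w 0) := mul_le_mul_of_nonneg_left h0 hbb
    have m2 : ‖b‖ * (nr1 (U (w 1)) + nr1 (Vq (w 1))) ≤ ‖b‖ * nr1 (w 1) := mul_le_mul_of_nonneg_left h1 hbb
    have m3 : ‖b‖ * (nr1 (U (w 0)) + nr1 (Vq (w 1))) ≤ ‖b‖ * (nr1 (w 0) + nr1 (w 1)) :=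
      mul_le_mul_of_nonneg_left (by linarith) hbb
    nlinarith [a0, a1, b0, b1, m1, m2, m3, hq1, h2]

end Pool.Agent.L7h6.RV
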