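import Pool.Agent.L7h6.RV.Lim

/-! [GEN] of project RV (helper57). -/

set_option autoImplicit false

namespace Pool.Agent.L7h6.RV

open MvPolynomial Pool.Helper89.Rev Pool.Agent.L7h57.RV

/-- the closures of two families that agree modulo `K 3` agree modulo `K 3` -/
theorem closure_lift {n r : ℕ} {t t' : Fin r → G n} (h : ∀ j, t' j * (t j)⁻¹ ∈ K n 3) {γ : G n}
    (hγ : γ ∈ Subgroup.closure (Set.range t)) :
    ∃ γ' ∈ Subgroup.closure (Set.range t'), γ' * γ⁻¹ ∈ K n 3 := by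
  induction hγ using Subgroup.closure_induction with
  | mem x hx =>
    obtain ⟨j, rfl⟩ := hx
    exact ⟨t' j, Subgroup.subset_closure ⟨j, rfl⟩, h j⟩
  | one => exact ⟨1, Subgroup.one_mem _, by rw [inv_one, mul_one]; exact (K n 3).one_mem⟩
  | mul x y _ _ hx hy =>
    obtain ⟨x', hx', hx3⟩ := hx
    obtain ⟨y', hy', hy3⟩ := hy
    refine ⟨x' * y', Subgroup.mul_mem _ hx' hy', ?_⟩
    have e : x' * y' * (x * y)⁻¹ = (x' * (y' * y⁻¹) * x'⁻¹) * (x' * x⁻¹) := by group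
    rw [e]
    exact (K n 3).mul_mem ((K_normal 3).conj_mem _ hy3 x') hx3
  | inv x _ hx =>
    obtain ⟨x', hx', hx3⟩ := hx
    refine ⟨x'⁻¹, Subgroup.inv_mem _ hx', ?_⟩
    have e : x'⁻¹ * (x⁻¹)⁻¹ = x'⁻¹ * (x' * x⁻¹)⁻¹ * (x'⁻¹)⁻¹ := by group
    rw [e]
    exact (K_normal 3).conj_mem _ ((K n 3).inv_mem hx3) x'⁻¹

theorem genSet_sub {n r : ℕ} {t t' : Fin r → G n} (h : ∀ j, t' j * (t j)⁻¹ ∈ K n 3) (d : ℕ) :
    GenSet t d ⊆ GenSet t' d := by
  have hlin : ∀ j, linPart (t' j : FormalMap n) = linPart (t j : FormalMap n) := fun j =>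
    cong_two_iff.1 (cong_of_mem (K_mono (by omega) (h j)))
  rintro x (⟨j, e, he, hx⟩ | ⟨hd, γ, hγ, hγ2, D, hD, hx⟩)
  · refine Or.inl ⟨j, e, he, ?_⟩
    rw [hlin j]
    exact hx
  · obtain ⟨γ', hγ', h3⟩ := closure_lift h hγ
    have h32 : γ' * γ⁻¹ ∈ K n 2 := K_mono (by omega) h3
    have e : γ' = γ' * γ⁻¹ * γ := by group
    refine Or.inr ⟨hd, γ', hγ', ?_, D, hD, ?_⟩
    · rw [e]
      exact (K n 2).mul_mem h32 hγ2
    · have hg : gr 2 (γ' : FormalMap n) = gr 2 (γ : FormalMap n) := by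
        conv_lhs => rw [e]
        rw [gr_mul le_rfl h32 hγ2, gr_of_mem_K_succ le_rfl h3, zero_add]
      rw [hg]
      exact hx

theorem s_GEN (h1 : S_STEP) (h2 : S_LIM) : S_GEN := by
  intro n r t ht d0 hd0 F hF hspan
  have conj_mem : ∀ (e : ℕ) (w s : G n), w ∈ K n e → w * s * w⁻¹ * s⁻¹ ∈ K n e := by
    intro e w s hw
    have e1 : w * s * w⁻¹ * s⁻¹ = w * (s * w⁻¹ * s⁻¹) := by group
    rw [e1]
    exact (K n e).mul_mem hw ((K_normal e).conj_mem _ ((K n e).inv_mem hw) s)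
  have step : ∀ (k : ℕ) (s : Fin r → G n), ((∀ j, s j * s j = 1) ∧ (∀ j, s j * (t j)⁻¹ ∈ K n 3) ∧
      F * ((List.ofFn s).prod)⁻¹ ∈ K n (d0 + k)) → ∃ s' : Fin r → G n,
      ((∀ j, s' j * s' j = 1) ∧ (∀ j, s' j * (t j)⁻¹ ∈ K n 3) ∧
        F * ((List.ofFn s').prod)⁻¹ ∈ K n (d0 + (k + 1))) ∧ ∀ j, s' j * (s j)⁻¹ ∈ K n (k + 2) := by
    rintro k s ⟨hs, hst, hsF⟩
    have hgr : gr (d0 + k) ((F * ((List.ofFn s).prod)⁻¹ : G n) : FormalMap n) ∈
        Submodule.span ℂ (GenSet s (d0 + k)) :=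
      Submodule.span_mono (genSet_sub hst (d0 + k)) (hspan (d0 + k) (by omega) _ (gr_hom _ _))
    obtain ⟨w, hw3, hwd, hwF⟩ := h1 n r s hs (d0 + k) (by omega) F hsF hgr
    refine ⟨fun j => w j * s j * (w j)⁻¹, ⟨?_, ?_, hwF⟩, ?_⟩
    · intro j
      calc (w j * s j * (w j)⁻¹) * (w j * s j * (w j)⁻¹) = w j * (s j * s j) * (w j)⁻¹ := by group
        _ = 1 := by rw [hs, mul_one, mul_inv_cancel]
    · intro j
      have e1 : w j * s j * (w j)⁻¹ * (t j)⁻¹ = (w j * s j * (w j)⁻¹ * (s j)⁻¹) * (s j * (t j)⁻¹) := by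
        group
      show w j * s j * (w j)⁻¹ * (t j)⁻¹ ∈ K n 3
      rw [e1]
      exact (K n 3).mul_mem (conj_mem 3 _ _ (hw3 j)) (hst j)
    · intro j
      exact K_mono (by omega) (conj_mem (d0 + k - 1) _ _ (hwd j))
  choose! nxt hn1 hn2 using step
  set s : ℕ → (Fin r → G n) := fun k => Nat.rec t (fun k g => nxt k g) k with hs
  have hs0 : s 0 = t := rfl
  have hss : ∀ k, s (k + 1) = nxt k (s k) := fun k => rfl
  have hP : ∀ k, (∀ j, s k j * s k j = 1) ∧ (∀ j, s k j * (t j)⁻¹ ∈ K n 3) ∧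
      F * ((List.ofFn (s k)).prod)⁻¹ ∈ K n (d0 + k) := by
    intro k
    induction k with
    | zero =>
      rw [hs0]
      exact ⟨ht, fun j => by rw [mul_inv_cancel]; exact (K n 3).one_mem, hF⟩
    | succ k ih =>
      rw [hss]
      exact hn1 k _ ih
  refine h2 n r s F (fun k j => (hP k).1 j) (fun k j => ?_) fun k => K_mono (by omega) (hP k).2.2
  rw [hss]
  exact hn2 k _ (hP k) j

end Pool.Agent.L7h6.RV
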