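import Pool.Agent.L7h57.RV.Stm

/-! [LIM] of project RV (helper57). -/

set_option autoImplicit false

namespace Pool.Agent.L7h6.RV

open MvPolynomial Pool.Helper89.Rev Pool.Agent.L7h57.RV

theorem cong_of_mem {n d : ℕ} {u v : G n} (h : u * v⁻¹ ∈ K n d) :
    Cong d (u : FormalMap n) (v : FormalMap n) := by
  have h1 := (mem_K.1 h).mul (Cong.refl d (v : FormalMap n))
  rwa [one_mul, ← Units.val_mul, inv_mul_cancel_right] at h1

theorem mk_prod {n r d : ℕ} (a b : Fin r → G n) (h : ∀ j, Cong d (a j : FormalMap n) (b j : FormalMap n)) :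
    (QuotientGroup.mk ((List.ofFn a).prod) : G n ⧸ K n d) = QuotientGroup.mk ((List.ofFn b).prod) := by
  have e : ∀ c : Fin r → G n, (QuotientGroup.mk ((List.ofFn c).prod) : G n ⧸ K n d) =
      (List.ofFn fun j => (QuotientGroup.mk (c j) : G n ⧸ K n d)).prod := by
    intro c
    have h1 := map_list_prod (QuotientGroup.mk' (K n d)) (List.ofFn c)
    rw [List.map_ofFn] at h1
    exact h1
  rw [e, e]
  congr 2
  funext j
  exact cong_quot (h j)

theorem s_LIM : S_LIM := by
  intro n r t F ht hc hF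
  have hlim : ∀ j, ∃ v : G n, v * v = 1 ∧ ∀ k, Cong (k + 2) (v : FormalMap n) (t k j : FormalMap n) := by
    intro j
    obtain ⟨y, hy⟩ := exists_limit (fun k => (t k j : FormalMap n)) fun k => cong_of_mem (hc k j)
    have hyy : y * y = 1 := by
      refine eq_of_cong fun d => ?_
      have h1 := (hy d).mul (hy d)
      have h2 : (t d j : FormalMap n) * (t d j : FormalMap n) = 1 := by
        rw [← Units.val_mul, ht, Units.val_one]
      rw [h2] at h1
      exact h1.mono (by omega)
    exact ⟨⟨y, y, hyy, hyy⟩, Units.ext hyy, hy⟩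
  choose v hv1 hv2 using hlim
  refine ⟨v, hv1, ?_⟩
  rw [← mul_inv_eq_one]
  apply eq_one_of_mem_K
  intro d
  have e0 : (QuotientGroup.mk (F * ((List.ofFn (t d)).prod)⁻¹) : G n ⧸ K n (d + 2)) = 1 :=
    (QuotientGroup.eq_one_iff _).2 (hF d)
  have e2 := mk_prod (d := d + 2) v (t d) fun j => hv2 j d
  have e3 : (QuotientGroup.mk (F * ((List.ofFn v).prod)⁻¹) : G n ⧸ K n (d + 2)) = 1 := by
    rw [QuotientGroup.mk_mul, QuotientGroup.mk_inv, e2, ← QuotientGroup.mk_inv,
      ← QuotientGroup.mk_mul]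
    exact e0
  exact K_mono (by omega) ((QuotientGroup.eq_one_iff _).1 e3)

end Pool.Agent.L7h6.RV
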