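import Pool.Agent.L7h57.RV.Stm

/-! [NB] of project RV (helper57). -/

set_option autoImplicit false

namespace Pool.Agent.L7h6.RV

open MvPolynomial Pool.Helper89.Rev Pool.Agent.L7h57.RV

theorem nr1_of_sub {p : MvPolynomial (Fin 2) ℂ} {S : Finset (Fin 2 →₀ ℕ)} (h : p.support ⊆ S) :
    nr1 p = ∑ m ∈ S, ‖coeff m p‖ := by
  unfold nr1
  refine Finset.sum_subset h fun m _ hm => ?_
  rw [notMem_support_iff.1 hm, norm_zero]

theorem nr1_nonneg (p : MvPolynomial (Fin 2) ℂ) : 0 ≤ nr1 p :=
  Finset.sum_nonneg fun _ _ => norm_nonneg _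

theorem nr1_zero : nr1 (0 : MvPolynomial (Fin 2) ℂ) = 0 := by simp [nr1]

theorem nr1_add (p q : MvPolynomial (Fin 2) ℂ) : nr1 (p + q) ≤ nr1 p + nr1 q := by
  classical
  rw [nr1_of_sub (p := p + q) (S := p.support ∪ q.support) support_add,
    nr1_of_sub (p := p) (S := p.support ∪ q.support) Finset.subset_union_left,
    nr1_of_sub (p := q) (S := p.support ∪ q.support) Finset.subset_union_right,
    ← Finset.sum_add_distrib]
  refine Finset.sum_le_sum fun m _ => ?_
  rw [coeff_add]
  exact norm_add_le _ _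

theorem nr1_neg (p : MvPolynomial (Fin 2) ℂ) : nr1 (-p) = nr1 p := by
  rw [nr1_of_sub (p := -p) (S := p.support) (by rw [support_neg])]
  unfold nr1
  refine Finset.sum_congr rfl fun m _ => ?_
  rw [coeff_neg, norm_neg]

theorem nr1_sub (p q : MvPolynomial (Fin 2) ℂ) : nr1 (p - q) ≤ nr1 p + nr1 q := by
  rw [sub_eq_add_neg]
  have := nr1_add p (-q)
  rwa [nr1_neg] at this

theorem nr1_sum {ι : Type} (S : Finset ι) (f : ι → MvPolynomial (Fin 2) ℂ) :
    nr1 (∑ i ∈ S, f i) ≤ ∑ i ∈ S, nr1 (f i) := by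
  classical
  induction S using Finset.induction_on with
  | empty => simp [nr1_zero]
  | insert a S ha ih =>
    rw [Finset.sum_insert ha, Finset.sum_insert ha]
    exact (nr1_add _ _).trans (by linarith)

theorem nr1_monomial (m : Fin 2 →₀ ℕ) (c : ℂ) : nr1 (monomial m c) = ‖c‖ := by
  classical
  rw [nr1_of_sub (p := monomial m c) (S := {m}) support_monomial_subset, Finset.sum_singleton,
    coeff_monomial, if_pos rfl]

theorem nr1_mul (p q : MvPolynomial (Fin 2) ℂ) : nr1 (p * q) ≤ nr1 p * nr1 q := by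
  have h : p * q = ∑ m ∈ p.support, ∑ k ∈ q.support,
      monomial (m + k) (coeff m p * coeff k q) := by
    conv_lhs => rw [p.as_sum, q.as_sum, Finset.sum_mul_sum]
    simp only [monomial_mul]
  rw [h]
  refine (nr1_sum _ _).trans ?_
  unfold nr1 at *
  rw [Finset.sum_mul]
  refine Finset.sum_le_sum fun m _ => ?_
  rw [Finset.mul_sum]
  refine (nr1_sum q.support fun k => monomial (m + k) (coeff m p * coeff k q)).trans ?_
  refine Finset.sum_le_sum fun k _ => ?_
  rw [nr1_monomial, norm_mul]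

theorem nr1_pderiv {p : MvPolynomial (Fin 2) ℂ} {k : ℕ} (hp : p.IsHomogeneous k) (j : Fin 2) :
    nr1 (pderiv j p) ≤ k * nr1 p := by
  have h : pderiv j p = ∑ m ∈ p.support, monomial (m - Finsupp.single j 1) (coeff m p * m j) := by
    conv_lhs => rw [p.as_sum, map_sum]
    simp only [pderiv_monomial]
  rw [h]
  refine (nr1_sum _ _).trans ?_
  unfold nr1
  rw [Finset.mul_sum]
  refine Finset.sum_le_sum fun m hm => ?_
  have h1 := nr1_monomial (m - Finsupp.single j 1) (coeff m p * m j)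
  unfold nr1 at h1
  rw [h1, norm_mul, Complex.norm_natCast, mul_comm]
  refine mul_le_mul_of_nonneg_right ?_ (norm_nonneg _)
  have h2 := hp (mem_support_iff.1 hm)
  rw [Finsupp.weight_apply, Finsupp.sum_fintype _ _ (by simp)] at h2
  simp only [Pi.one_apply, smul_eq_mul, mul_one] at h2
  have h3 : m j ≤ k := by
    rw [← h2]
    exact Finset.single_le_sum (fun _ _ => Nat.zero_le _) (Finset.mem_univ j)
  exact_mod_cast h3

theorem s_NB : S_NB := by
  intro d A D hA hD
  unfold nrm
  have h1 : ∀ i : Fin 2, nr1 (br A D i) ≤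
      ∑ j : Fin 2, (2 * nr1 (A i) * nr1 (D j) + d * nr1 (D i) * nr1 (A j)) := by
    intro i
    unfold br
    refine (nr1_sum _ _).trans (Finset.sum_le_sum fun j _ => ?_)
    refine (nr1_sub _ _).trans (add_le_add ?_ ?_)
    · refine (nr1_mul _ _).trans ?_
      refine mul_le_mul_of_nonneg_right ?_ (nr1_nonneg _)
      exact_mod_cast nr1_pderiv (hA i) j
    · refine (nr1_mul _ _).trans ?_
      exact mul_le_mul_of_nonneg_right (nr1_pderiv (hD i) j) (nr1_nonneg _)
  refine (Finset.sum_le_sum fun i _ => h1 i).trans (le_of_eq ?_)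
  simp only [Fin.sum_univ_two]
  ring

end Pool.Agent.L7h6.RV
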