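import Pool.Agent.L7h6.RV.Dv

/-! [SUR] of project RV (helper57). -/

set_option autoImplicit false

namespace Pool.Agent.L7h6.RV

open MvPolynomial Pool.Helper89.Rev Pool.Agent.L7h57.RV

theorem br_apply (C D : VF 2) (i : Fin 2) :
    br C D i = ∑ j, (pderiv j (C i) * D j - pderiv j (D i) * C j) := rfl

/-- the bracket as a linear map -/
noncomputable def brL (A : VF 2) : VF 2 →ₗ[ℂ] VF 2 where
  toFun := br A
  map_add' D D' := by
    funext i
    rw [Pi.add_apply, br_apply, br_apply, br_apply, ← Finset.sum_add_distrib]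
    refine Finset.sum_congr rfl fun j _ => ?_
    simp only [Pi.add_apply, map_add]
    ring
  map_smul' r D := by
    funext i
    rw [Pi.smul_apply, br_apply, br_apply, Finset.smul_sum]
    refine Finset.sum_congr rfl fun j _ => ?_
    have h : pderiv j ((r • D) i) = C r * pderiv j (D i) := by
      rw [Pi.smul_apply, (pderiv j).map_smul, smul_eq_C_mul]
    rw [h]
    simp only [Pi.smul_apply, smul_eq_C_mul, RingHom.id_apply]
    ring

theorem br_add (C C' D : VF 2) : br (C + C') D = br C D + br C' D := by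
  funext i
  rw [Pi.add_apply, br_apply, br_apply, br_apply, ← Finset.sum_add_distrib]
  refine Finset.sum_congr rfl fun j _ => ?_
  simp only [Pi.add_apply, map_add]
  ring

theorem br_hom {d : ℕ} {A D : VF 2} (hA : HomT 2 A) (hD : HomT (d + 1) D) : HomT (d + 2) (br A D) := by
  intro i
  unfold br
  refine IsHomogeneous.sum _ _ _ fun j _ => ?_
  have h1 : (pderiv j (A i) * D j).IsHomogeneous (d + 2) := by
    have := ((hA i).pderiv (i := j)).mul (hD j)
    rwa [show 2 - 1 + (d + 1) = d + 2 by omega] at this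
  have h2 : (pderiv j (D i) * A j).IsHomogeneous (d + 2) := by
    have := ((hD i).pderiv (i := j)).mul (hA j)
    rwa [show d + 1 - 1 + 2 = d + 2 by omega] at this
  exact h1.sub h2

theorem nrm_nonneg (P : VF 2) : 0 ≤ nrm P := Finset.sum_nonneg fun _ _ => nr1_nonneg _

theorem nrm_add (P Q : VF 2) : nrm (P + Q) ≤ nrm P + nrm Q := by
  unfold nrm
  rw [← Finset.sum_add_distrib]
  exact Finset.sum_le_sum fun i _ => nr1_add _ _

theorem nrm_neg (P : VF 2) : nrm (-P) = nrm P := by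
  unfold nrm
  exact Finset.sum_congr rfl fun i _ => nr1_neg _

theorem eq_zero_of_nrm {P : VF 2} (h : nrm P ≤ 0) : P = 0 := by
  have h1 : nrm P = 0 := le_antisymm h (nrm_nonneg P)
  unfold nrm at h1
  rw [Finset.sum_eq_zero_iff_of_nonneg fun _ _ => nr1_nonneg _] at h1
  funext i
  have h2 := h1 i (Finset.mem_univ i)
  unfold nr1 at h2
  rw [Finset.sum_eq_zero_iff_of_nonneg fun _ _ => norm_nonneg _] at h2
  ext m
  by_contra hne
  exact hne (norm_eq_zero.1 (h2 m (mem_support_iff.2 (by simpa using hne))))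

theorem fin_HomV (d : ℕ) : FiniteDimensional ℂ (HomV 2 d) := by
  have h : (HomV 2 d).FG := Submodule.fg_pi fun _ => homogeneousSubmodule_fg (Fin 2) ℂ d
  exact Module.Finite.iff_fg.2 h

theorem s_SUR (hNB : S_NB) (hDV : S_DV) : S_SUR := by
  refine ⟨1 / 10, by norm_num, ?_⟩
  intro A A' hA hA' hAn hAn' d hd w hw
  obtain ⟨B, B', hB⟩ := hDV d hd
  obtain ⟨e, rfl⟩ : ∃ e, d = e + 4 := ⟨d - 4, by omega⟩
  set T : VF 2 →ₗ[ℂ] VF 2 := LinearMap.id + (brL A).comp B + (brL A').comp B' with hT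
  have hTa : ∀ x, T x = x + br A (B x) + br A' (B' x) := fun x => rfl
  have hmap : ∀ x ∈ HomV 2 (e + 4), T x ∈ HomV 2 (e + 4) := by
    intro x hx
    have hx' := mem_HomV.1 hx
    obtain ⟨h1, h2, -, -⟩ := hB x hx'
    have h3 : HomT (e + 4) (br A (B x)) := br_hom (d := e + 2) hA h1
    have h4 : HomT (e + 4) (br A' (B' x)) := br_hom (d := e + 2) hA' h2
    rw [hTa]
    exact (HomV 2 (e + 4)).add_mem ((HomV 2 (e + 4)).add_mem hx (mem_HomV.2 h3)) (mem_HomV.2 h4)
  have := fin_HomV (e + 4)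
  have hinj : Function.Injective (T.restrict hmap) := by
    rw [injective_iff_map_eq_zero]
    rintro ⟨x, hx⟩ h0
    have h0' : T x = 0 := congrArg Subtype.val h0
    have hx' := mem_HomV.1 hx
    obtain ⟨h1, h2, -, h3⟩ := hB x hx'
    have h4 := hNB (e + 4 - 1) A (B x) hA h1
    have h5 := hNB (e + 4 - 1) A' (B' x) hA' h2
    have h6 : x = -(br A (B x) + br A' (B' x)) := by
      rw [hTa] at h0'
      rw [eq_neg_iff_add_eq_zero, ← add_assoc]
      exact h0'
    have h7 : nrm x ≤ nrm (br A (B x)) + nrm (br A' (B' x)) := by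
      calc nrm x = nrm (-(br A (B x) + br A' (B' x))) := congrArg nrm h6
        _ = nrm (br A (B x) + br A' (B' x)) := nrm_neg _
        _ ≤ _ := nrm_add _ _
    have h8 : (((e + 4 - 1 : ℕ) : ℝ) + 2) = (e : ℝ) + 5 := by
      have : e + 4 - 1 = e + 3 := by omega
      rw [this]
      push_cast
      ring
    have h9 : (((e + 4 : ℕ) : ℝ) - 2) = (e : ℝ) + 2 := by
      push_cast
      ring
    rw [h8] at h4 h5
    rw [h9] at h3
    have e0 : (0 : ℝ) ≤ e := Nat.cast_nonneg e
    have n1 := nrm_nonneg (B x)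
    have n2 := nrm_nonneg (B' x)
    have n3 := nrm_nonneg x
    have h10 : ((e : ℝ) + 5) * nrm A * nrm (B x) ≤ ((e : ℝ) + 5) * (1 / 10) * nrm (B x) := by
      gcongr
    have h11 : ((e : ℝ) + 5) * nrm A' * nrm (B' x) ≤ ((e : ℝ) + 5) * (1 / 10) * nrm (B' x) := by
      gcongr
    have h12 : nrm x ≤ ((e : ℝ) + 5) * (1 / 10) * (3 / ((e : ℝ) + 2) * nrm x) := by
      calc nrm x ≤ ((e : ℝ) + 5) * (1 / 10) * (nrm (B x) + nrm (B' x)) := by linarith
        _ ≤ _ := by gcongr
    have h13 : ((e : ℝ) + 5) * (1 / 10) * (3 / ((e : ℝ) + 2) * nrm x) ≤ 3 / 4 * nrm x := by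
      rw [← mul_assoc]
      refine mul_le_mul_of_nonneg_right ?_ n3
      rw [mul_div_assoc', div_le_iff₀ (by linarith)]
      linarith
    have h14 : x = 0 := eq_zero_of_nrm (by linarith)
    exact Subtype.ext h14
  have hsur := LinearMap.injective_iff_surjective.1 hinj
  obtain ⟨⟨x, hx⟩, hxw⟩ := hsur ⟨w, mem_HomV.2 hw⟩
  have hxw' : T x = w := congrArg Subtype.val hxw
  obtain ⟨h1, h2, h3, -⟩ := hB x (mem_HomV.1 hx)
  refine ⟨B x, B' x, h1, h2, ?_⟩
  rw [br_add, br_add, ← hxw', hTa]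
  linear_combination -h3

end Pool.Agent.L7h6.RV
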